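import Pool.Agent.H15.DefD

/-!
# MP_5b422c_co: graphs of chromatic number `ℵ₁` with `h_G(n) ≪ n^{1+ε}`
-/

set_option autoImplicit false

namespace Pool.Agent.Results.MP_5b422c_co.SlowGrowth

open Pool.Agent.H15.Def

/-- For every real `ε > 0` there is a graph `G` with chromatic number exactly `ℵ₁` and a constant
`C > 0` such that every finite set `S` of vertices spans a subgraph that becomes bipartite after
deleting at most `C |S|^{1+ε}` edges; in particular `h_G(n) ≤ C n^{1+ε}` for every `n`. No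
hypothesis beyond ZFC is used. -/
theorem result (ε : ℝ) (hε : 0 < ε) : ∃ (V : Type) (G : SimpleGraph V),
    chi G = Cardinal.aleph 1 ∧
    ∃ C : ℝ, 0 < C ∧
      (∀ S : Finset V, (beta (G.induce (S : Set V)) : ℝ) ≤ C * (S.card : ℝ) ^ (1 + ε)) ∧
      ∀ n : ℕ, (hG G n : ℝ) ≤ C * (n : ℝ) ^ (1 + ε) :=
  final ε hε

end Pool.Agent.Results.MP_5b422c_co.SlowGrowth
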